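import Pool.Agent.Helper33.DP.Sheet

/-!
# Version 2 (MP_fcb106_co): abstract parameters, exponent 10

Differences to version 1: the parameters are abstract (structure `Par`), the error recursion needs
only `1 ≤ E * p`, the lower bound for the routing matrix comes from the potential and the total mass.
-/

set_option autoImplicit false

namespace Pool.Agent.Helper33.DP2

open Finset Pool.Agent.Helper33.DP

/-- The parameters. -/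
structure Par (w : ℕ) where
  /-- the smallest bound of the potential -/
  b : ℝ
  /-- the relative loss -/
  y : ℝ
  /-- a lower bound for the entries of the routing matrices -/
  p : ℝ
  /-- the bound of the errors -/
  E : ℝ
  /-- the number of colours -/
  N : ℕ
  hw : 1 ≤ w
  b_pos : 0 < b
  y_pos : 0 < y
  y_le : y ≤ 1 / 8
  p_pos : 0 < p
  p_le : p * w ≤ 1
  hE : 1 ≤ E * p
  grow : (1 + 8 * y) ^ (w ^ 2) ≤ 3
  err : 4 * w * E * (3 * b) ≤ y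
  rnd : w * (4 * b) ≤ y
  mass : p * (4 * b * N) ≤ 1

/-- The bound of the potential for a graph with `m` edges. -/
noncomputable def Par.bet {w : ℕ} (π : Par w) (m : ℕ) : ℝ := π.b * (1 + 8 * π.y) ^ (w ^ 2 - m)

/-- The good states of a gap. -/
def GoodS {w : ℕ} (π : Par w) (G : Gr w) (μ : Fin w → Fin w → ℕ) : Prop :=
  (∀ a b, (a, b) ∉ G → μ a b = 0) ∧ ∑ a, ∑ b, μ a b ≤ π.N ∧
  ∃ ρ : Fin w → Fin w → ℝ, (∀ a b, (a, b) ∉ G → ρ a b = 0) ∧ Bdd G ρ (π.bet G.card) ∧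
    ErrLe (fun a b => (μ a b : ℝ) - ρ a b) π.E

/-- TM, the total mass of a routing. -/
def ST_TM : Prop :=
  ∀ (w : ℕ) (G₁ G₂ : Gr w) (μ : Fin w → Fin w → ℕ) (z : Fin w → Fin w → Fin w → ℕ),
    Route G₁ G₂ μ z →
    ∑ a, ∑ x, ∑ b, z a x b ≤ ∑ a, ∑ b, μ a b ∧ ∑ x, ∑ b, ∑ a, z a x b ≤ ∑ a, ∑ b, μ a b

/-- ERS2, the step of the error estimate (columns). -/
def ST_ERS2 : Prop :=
  ∀ (w : ℕ) (G₂ : Gr w) (P δ : Fin w → Fin w → ℝ) (ν : Fin w → Fin w → Fin w → ℝ) (p E : ℝ),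
    0 < p → 1 ≤ E * p → DS G₂ P → (∀ x b, (x, b) ∈ G₂ → p ≤ P x b) → ErrLe δ E →
    (∀ a x b, |ν a x b| ≤ 1) → (∀ a x b, (x, b) ∉ G₂ → ν a x b = 0) →
    (∀ a b, ∑ x, ν a x b = 0) →
    ErrLe (fun a x => ∑ b, δ a b * P x b + ∑ b, ν a x b) E

/-- ERSR2, the step of the error estimate (rows). -/
def ST_ERSR2 : Prop :=
  ∀ (w : ℕ) (G₁ : Gr w) (Q δ : Fin w → Fin w → ℝ) (ν : Fin w → Fin w → Fin w → ℝ) (p E : ℝ),
    0 < p → 1 ≤ E * p → DS G₁ Q → (∀ a x, (a, x) ∈ G₁ → p ≤ Q a x) → ErrLe δ E →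
    (∀ a x b, |ν a x b| ≤ 1) → (∀ a x b, (a, x) ∉ G₁ → ν a x b = 0) →
    (∀ a b, ∑ x, ν a x b = 0) →
    ErrLe (fun x b => ∑ a, Q a x * δ a b + ∑ a, ν a x b) E

/-- PEX2, the choice of the routing matrix. -/
def ST_PEX2 : Prop :=
  ∀ (w : ℕ) (G₂ : Gr w) (s : Fin w → ℝ) (β β' : ℝ), 1 ≤ w → IsCore G₂ → (∀ b, 0 < s b) →
    ∑ e ∈ G₂, (s e.2)⁻¹ ≤ β → β < β' →
    ∃ P, DS G₂ P ∧ Bdd G₂ (fun x b => P x b * s b) β'

/-- GB2, what a good state gives. -/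
def ST_GB2 : Prop :=
  ∀ (w : ℕ) (π : Par w) (G : Gr w) (μ : Fin w → Fin w → ℕ), IsCore G → GoodS π G μ →
    (∀ a b, (a, b) ∈ G → 1 ≤ μ a b) ∧
    Bdd G (fun a b => (μ a b : ℝ)) (π.bet G.card / (1 - π.y))

/-- GT2, transposition of good states. -/
def ST_GT2 : Prop :=
  ∀ (w : ℕ) (π : Par w) (G : Gr w) (μ : Fin w → Fin w → ℕ), GoodS π G μ →
    GoodS π (tr G) (fun a b => μ b a)

/-- The conclusion of a step. -/
def StepC {w : ℕ} (π : Par w) (G₁ G₂ : Gr w) (μ : Fin w → Fin w → ℕ) : Prop :=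
  ∃ z, Route G₁ G₂ μ z ∧ GoodS π G₁ (fun a x => ∑ b, z a x b) ∧
    GoodS π G₂ (fun x b => ∑ a, z a x b)

/-- Case A. -/
def ST_A2 : Prop :=
  ∀ (w : ℕ) (π : Par w) (G G₁ G₂ : Gr w) (μ : Fin w → Fin w → ℕ), IsCore G → IsCore G₁ →
    IsCore G₂ → comp G₁ G₂ ⊆ G → GoodS π G μ → G₁.card < G.card → G₂.card < G.card →
    StepC π G₁ G₂ μ

/-- Case B. -/
def ST_B2 : Prop :=
  ∀ (w : ℕ) (π : Par w) (G G₁ G₂ : Gr w) (μ : Fin w → Fin w → ℕ), IsCore G → IsCore G₁ →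
    IsCore G₂ → comp G₁ G₂ ⊆ G → GoodS π G μ → G₁.card = G.card → G₂.card < G.card →
    StepC π G₁ G₂ μ

/-- Case B transposed. -/
def ST_BT2 : Prop :=
  ∀ (w : ℕ) (π : Par w) (G G₁ G₂ : Gr w) (μ : Fin w → Fin w → ℕ), IsCore G → IsCore G₁ →
    IsCore G₂ → comp G₁ G₂ ⊆ G → GoodS π G μ → G₁.card < G.card → G₂.card = G.card →
    StepC π G₁ G₂ μ

/-- Case C. -/
def ST_C2 : Prop :=
  ∀ (w : ℕ) (π : Par w) (G G₁ G₂ : Gr w) (μ : Fin w → Fin w → ℕ), IsCore G → IsCore G₁ →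
    IsCore G₂ → comp G₁ G₂ ⊆ G → GoodS π G μ → G₁.card = G.card → G₂.card = G.card →
    StepC π G₁ G₂ μ

/-- START2, the complete graph. -/
def ST_START2 : Prop :=
  ∀ (w : ℕ) (π : Par w) (c : ℕ), w * w * c = π.N → (w : ℝ) ≤ c * π.b →
    GoodS π (univ : Gr w) (fun _ _ => c)

/-- S2, the strategy theorem. -/
def ST_S2 : Prop := ∀ (w : ℕ) (π : Par w) (c : ℕ), w * w * c = π.N → (w : ℝ) ≤ c * π.b →
  ∃ Good, Strat w π.N Good

/-- PAR, the parameters with `N = 512 w ^ 9`. -/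
def ST_PAR : Prop := ∀ w : ℕ, 1 ≤ w → ∃ (π : Par w) (c : ℕ), w * w * c = π.N ∧
  (w : ℝ) ≤ c * π.b ∧ π.N = 512 * w ^ 9

/-- The final theorem. -/
def ST_FINAL2 : Prop :=
  ∀ w : ℕ, 1 ≤ w → Pool.Agent.Helper3.DW.Suffices w (512 * w ^ 10)

end Pool.Agent.Helper33.DP2
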